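import Pool.Agent.Helper3.WA.Defs
import Pool.Agent.Helper94.WA.Adaptive

/-!
# WA-15: the random set of partial top digits
-/

set_option autoImplicit false

namespace Pool.Agent.Helper83.WA

open Finset Filter
open Pool.Agent.Helper48.ET
open Pool.Agent.Helper3.WT (rp GG P0)
open Pool.Agent.Helper3.WA

/-- digit pairs -/
def ee (p m : ℕ) : ℕ := m % p + 2 * p * (m / p)

/-- the sum of the preimages -/
def sst (p n : ℕ) : ℕ := n % (2 * p) + p * (n / (2 * p))

theorem ee_eq (p m : ℕ) : ee p m = m + p * (m / p) := by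
  unfold ee
  have h := Nat.div_add_mod m p
  calc m % p + 2 * p * (m / p) = (p * (m / p) + m % p) + p * (m / p) := by ring
    _ = m + p * (m / p) := by rw [h]

theorem le_ee (p m : ℕ) : m ≤ ee p m := by
  rw [ee_eq]; exact Nat.le_add_right _ _

theorem ee_le (p m : ℕ) : ee p m ≤ 2 * m := by
  rw [ee_eq]
  have := Nat.mul_div_le m p
  omega

theorem ee_zero (p : ℕ) : ee p 0 = 0 := by
  simp [ee]

theorem ee_digits {p m m' n : ℕ} (hp : 0 < p) (h : ee p m + ee p m' = n) :
    n % (2 * p) = m % p + m' % p ∧ n / (2 * p) = m / p + m' / p := by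
  have h1 := Nat.mod_lt m hp
  have h2 := Nat.mod_lt m' hp
  have h3 : n = (m % p + m' % p) + (2 * p) * (m / p + m' / p) := by
    rw [← h]; unfold ee; ring
  have h4 : m % p + m' % p < 2 * p := by omega
  constructor
  · rw [h3, Nat.add_mul_mod_self_left, Nat.mod_eq_of_lt h4]
  · rw [h3, Nat.add_mul_div_left _ _ (by omega), Nat.div_eq_of_lt h4, zero_add]

theorem add_eq_sst {p m m' n : ℕ} (hp : 0 < p) (h : ee p m + ee p m' = n) :
    m + m' = sst p n := by
  obtain ⟨h1, h2⟩ := ee_digits hp h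
  unfold sst
  rw [h1, h2]
  have h3 := Nat.div_add_mod m p
  have h4 := Nat.div_add_mod m' p
  calc m + m' = (p * (m / p) + m % p) + (p * (m' / p) + m' % p) := by rw [h3, h4]
    _ = m % p + m' % p + p * (m / p + m' / p) := by ring

theorem ee_inj {p m m' : ℕ} (hp : 0 < p) (h : ee p m = ee p m') : m = m' := by
  have h1 := add_eq_sst (m := m) (m' := 0) hp (n := ee p m) (by rw [ee_zero, add_zero])
  have h2 := add_eq_sst (m := m') (m' := 0) hp (n := ee p m') (by rw [ee_zero, add_zero])
  rw [add_zero] at h1 h2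
  rw [h1, h2, h]

/-- the interval number `i` -/
def II (L i : ℕ) : Finset ℕ := Ico (L ^ 2 * (i + 1) ^ 2) (L ^ 2 * (i + 2) ^ 2)

theorem II_card (L i : ℕ) : (II L i).card = L ^ 2 * (2 * i + 3) := by
  unfold II
  rw [Nat.card_Ico]
  have : L ^ 2 * (i + 2) ^ 2 = L ^ 2 * (i + 1) ^ 2 + L ^ 2 * (2 * i + 3) := by ring
  omega

/-- the sum `N` may come from the intervals `i`, `i'` -/
def cond (L N i i' : ℕ) : Prop :=
  L ^ 2 * (i + 1) ^ 2 + L ^ 2 * (i' + 1) ^ 2 ≤ N ∧ N < L ^ 2 * (i + 2) ^ 2 + L ^ 2 * (i' + 2) ^ 2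

instance (L N i i' : ℕ) : Decidable (cond L N i i') := by
  unfold cond; infer_instance

theorem cond_of_mem {L i i' m m' : ℕ} (hm : m ∈ II L i) (hm' : m' ∈ II L i') :
    cond L (m + m') i i' := by
  unfold II at hm hm'
  rw [mem_Ico] at hm hm'
  constructor
  · exact Nat.add_le_add hm.1 hm'.1
  · exact Nat.add_lt_add hm.2 hm'.2

theorem two_of_cond {L N y : ℕ} (hL : 1 ≤ L) (k : ℕ) :
    (((range k).filter (fun x => y ≤ x)).filter (fun x => cond L N x y)).card ≤ 2 := by
  by_contra hcon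
  push Not at hcon
  obtain ⟨a, ha, b, hb, c, hc, hab, hac, hbc⟩ := Finset.two_lt_card.1 hcon
  simp only [mem_filter, mem_range] at ha hb hc
  have hL2 : 0 < L ^ 2 := by positivity
  -- two valid indices differ by at most one
  have key : ∀ u v : ℕ, y ≤ u → cond L N u y → cond L N v y → u + 2 ≤ v → False := by
    intro u v hu h1 h2 huv
    have h3 : L ^ 2 * (v + 1) ^ 2 + L ^ 2 * (y + 1) ^ 2 < L ^ 2 * (u + 2) ^ 2 + L ^ 2 * (y + 2) ^ 2 :=
      lt_of_le_of_lt h2.1 h1.2
    have h4 : (v + 1) ^ 2 + (y + 1) ^ 2 < (u + 2) ^ 2 + (y + 2) ^ 2 := by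
      rw [← mul_add, ← mul_add] at h3
      exact lt_of_mul_lt_mul_left h3 (Nat.zero_le _)
    nlinarith
  have h1 : ¬ (a + 2 ≤ b) := fun h => key a b ha.1.2 ha.2 hb.2 h
  have h2 : ¬ (a + 2 ≤ c) := fun h => key a c ha.1.2 ha.2 hc.2 h
  have h3 : ¬ (b + 2 ≤ a) := fun h => key b a hb.1.2 hb.2 ha.2 h
  have h4 : ¬ (b + 2 ≤ c) := fun h => key b c hb.1.2 hb.2 hc.2 h
  have h5 : ¬ (c + 2 ≤ a) := fun h => key c a hc.1.2 hc.2 ha.2 h
  have h6 : ¬ (c + 2 ≤ b) := fun h => key c b hc.1.2 hc.2 hb.2 h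
  omega

theorem cond_sqrt {L N x y : ℕ} (hL : 1 ≤ L) (hxy : y ≤ x) (h : cond L N x y) :
    y < Nat.sqrt (N / (2 * L ^ 2)) ∧ Nat.sqrt (N / (2 * L ^ 2)) ≤ x + 1 := by
  have hL2 : 0 < 2 * L ^ 2 := by positivity
  constructor
  · have h1 : y + 1 ≤ Nat.sqrt (N / (2 * L ^ 2)) := by
      rw [Nat.le_sqrt', Nat.le_div_iff_mul_le hL2]
      have h2 : L ^ 2 * (y + 1) ^ 2 ≤ L ^ 2 * (x + 1) ^ 2 := by gcongr
      have h3 := h.1
      calc (y + 1) ^ 2 * (2 * L ^ 2) = L ^ 2 * (y + 1) ^ 2 + L ^ 2 * (y + 1) ^ 2 := by ring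
        _ ≤ N := by omega
    omega
  · have h1 : Nat.sqrt (N / (2 * L ^ 2)) < x + 2 := by
      rw [Nat.sqrt_lt', Nat.div_lt_iff_lt_mul hL2]
      have h2 : L ^ 2 * (y + 2) ^ 2 ≤ L ^ 2 * (x + 2) ^ 2 := by gcongr
      have h3 := h.2
      calc N < L ^ 2 * (x + 2) ^ 2 + L ^ 2 * (y + 2) ^ 2 := h3
        _ ≤ L ^ 2 * (x + 2) ^ 2 + L ^ 2 * (x + 2) ^ 2 := by omega
        _ = (x + 2) ^ 2 * (2 * L ^ 2) := by ring
    omega

theorem sum_cond {L k N : ℕ} (hL : 1 ≤ L) :
    ∑ i ∈ range k, (((range (i + 1)).filter (fun i' => cond L N i i')).card : ℝ) /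
      ((II L i).card : ℝ) ≤ 1 / (L : ℝ) ^ 2 := by
  set W := Nat.sqrt (N / (2 * L ^ 2)) with hW
  have hLr : (0 : ℝ) < L := by exact_mod_cast hL
  have hc : (0 : ℝ) < (L : ℝ) ^ 2 * (2 * W + 1) := by positivity
  have h1 : ∀ i ∈ range k, (((range (i + 1)).filter (fun i' => cond L N i i')).card : ℝ) /
      ((II L i).card : ℝ) = ∑ i' ∈ range (i + 1),
        if cond L N i i' then 1 / ((II L i).card : ℝ) else 0 := by
    intro i _
    rw [← Finset.sum_filter, Finset.sum_const, nsmul_eq_mul, mul_one_div]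
  rw [Finset.sum_congr rfl h1]
  rw [Finset.sum_comm' (s' := fun y => (range k).filter (fun x => y ≤ x)) (t' := range k) (by
    intro x y
    simp only [mem_range, mem_filter]
    omega)]
  have h2 : ∀ y ∈ range k, (∑ x ∈ (range k).filter (fun x => y ≤ x),
      if cond L N x y then 1 / ((II L x).card : ℝ) else 0) ≤
        if y < W then 2 / ((L : ℝ) ^ 2 * (2 * W + 1)) else 0 := by
    intro y _
    rw [← Finset.sum_filter]
    by_cases hy : y < W
    · rw [if_pos hy]
      have h3 : ∀ x ∈ ((range k).filter (fun x => y ≤ x)).filter (fun x => cond L N x y),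
          1 / ((II L x).card : ℝ) ≤ 1 / ((L : ℝ) ^ 2 * (2 * W + 1)) := by
        intro x hx
        simp only [mem_filter, mem_range] at hx
        have h4 := (cond_sqrt hL hx.1.2 hx.2).2
        rw [II_card]
        push_cast
        have h5 : (W : ℝ) ≤ x + 1 := by exact_mod_cast h4
        apply one_div_le_one_div_of_le hc
        have h6 : (2 * (W : ℝ) + 1) ≤ 2 * x + 3 := by linarith
        have h7 : (0 : ℝ) ≤ (L : ℝ) ^ 2 := by positivity
        exact mul_le_mul_of_nonneg_left h6 h7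
      refine (Finset.sum_le_card_nsmul _ _ _ h3).trans ?_
      rw [nsmul_eq_mul]
      have h8 : ((((range k).filter (fun x => y ≤ x)).filter (fun x => cond L N x y)).card : ℝ)
          ≤ 2 := by exact_mod_cast two_of_cond hL k
      calc _ ≤ 2 * (1 / ((L : ℝ) ^ 2 * (2 * W + 1))) :=
            mul_le_mul_of_nonneg_right h8 (by positivity)
        _ = 2 / ((L : ℝ) ^ 2 * (2 * W + 1)) := by ring
    · rw [if_neg hy]
      have h3 : ((range k).filter (fun x => y ≤ x)).filter (fun x => cond L N x y) = ∅ := by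
        rw [Finset.filter_eq_empty_iff]
        intro x hx hcx
        simp only [mem_filter, mem_range] at hx
        exact hy (cond_sqrt hL hx.2 hcx).1
      rw [h3, Finset.sum_empty]
  refine (Finset.sum_le_sum h2).trans ?_
  rw [← Finset.sum_filter, Finset.sum_const, nsmul_eq_mul]
  have h3 : (((range k).filter (fun y => y < W)).card : ℝ) ≤ W := by
    have h4 : (range k).filter (fun y => y < W) ⊆ range W := by
      intro y hy
      simp only [mem_filter, mem_range] at hy
      exact mem_range.2 hy.2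
    have h5 := Finset.card_le_card h4
    rw [card_range] at h5
    exact_mod_cast h5
  have hW0 : (0 : ℝ) ≤ W := by positivity
  calc _ ≤ (W : ℝ) * (2 / ((L : ℝ) ^ 2 * (2 * W + 1))) :=
        mul_le_mul_of_nonneg_right h3 (by positivity)
    _ ≤ 1 / (L : ℝ) ^ 2 := by
        rw [mul_div_assoc', div_le_div_iff₀ hc (by positivity)]
        nlinarith [sq_nonneg (L : ℝ), mul_pos hLr hLr]

/-- a parabola has at most two points in every row -/
theorem row_two {p : ℕ} [Fact p.Prime] {lam t w : ZMod p} (hlam : lam ≠ 0) (S : Finset ℕ)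
    (r : ℕ) :
    ((S.filter (fun m => w - ((m / p : ℕ) : ZMod p) = lam * (t - (m : ZMod p)) ^ 2)).filter
      (fun m => m / p = r)).card ≤ 2 := by
  by_contra hcon
  push Not at hcon
  obtain ⟨a, ha, b, hb, c, hc, hab, hac, hbc⟩ := Finset.two_lt_card.1 hcon
  simp only [mem_filter] at ha hb hc
  have key : ∀ u v : ℕ, u / p = r → v / p = r → (u : ZMod p) = (v : ZMod p) → u = v := by
    intro u v hu hv huv
    have h1 := (ZMod.natCast_eq_natCast_iff' u v p).1 huv
    rw [← Nat.div_add_mod u p, ← Nat.div_add_mod v p, hu, hv, h1]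
  have sq : ∀ u v : ℕ, w - ((u / p : ℕ) : ZMod p) = lam * (t - (u : ZMod p)) ^ 2 →
      w - ((v / p : ℕ) : ZMod p) = lam * (t - (v : ZMod p)) ^ 2 → u / p = r → v / p = r →
      u ≠ v → t - (u : ZMod p) = -(t - (v : ZMod p)) := by
    intro u v hu hv hu' hv' huv
    rw [hu'] at hu
    rw [hv'] at hv
    have h1 : (t - (u : ZMod p)) ^ 2 = (t - (v : ZMod p)) ^ 2 :=
      mul_left_cancel₀ hlam (hu.symm.trans hv)
    rcases sq_eq_sq_iff_eq_or_eq_neg.1 h1 with h2 | h2
    · exfalso
      apply huv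
      apply key u v hu' hv'
      linear_combination -h2
    · exact h2
  have h1 := sq a b ha.1.2 hb.1.2 ha.2 hb.2 hab
  have h2 := sq a c ha.1.2 hc.1.2 ha.2 hc.2 hac
  apply hbc
  apply key b c hb.2 hc.2
  linear_combination h2 - h1

theorem par_card {p : ℕ} [Fact p.Prime] {lam t w : ZMod p} (hlam : lam ≠ 0) {L i : ℕ}
    (hL : 1 ≤ L) :
    ((((II L i).filter
      (fun m => w - ((m / p : ℕ) : ZMod p) = lam * (t - (m : ZMod p)) ^ 2)).card : ℕ) : ℝ) ≤
      (2 / p + 4 * (1 / ((II L i).card : ℝ))) * ((II L i).card : ℝ) := by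
  have hp0 : 0 < p := (Fact.out : p.Prime).pos
  set K := (II L i).filter
      (fun m => w - ((m / p : ℕ) : ZMod p) = lam * (t - (m : ZMod p)) ^ 2) with hK
  have h1 : K.card ≤ 2 * (K.image (fun m => m / p)).card := by
    apply Finset.card_le_mul_card_image
    intro r _
    exact row_two hlam (II L i) r
  set x := L ^ 2 * (i + 1) ^ 2 with hx
  set ll := L ^ 2 * (2 * i + 3) with hll
  have hll0 : 0 < ll := by rw [hll]; positivity
  have h2 : K.image (fun m => m / p) ⊆ Icc (x / p) ((x + ll - 1) / p) := by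
    intro r hr
    rw [mem_image] at hr
    obtain ⟨m, hm, rfl⟩ := hr
    rw [hK, mem_filter] at hm
    have h3 := hm.1
    unfold II at h3
    rw [mem_Ico] at h3
    rw [mem_Icc]
    have h4 : L ^ 2 * (i + 2) ^ 2 = x + ll := by rw [hx, hll]; ring
    constructor
    · exact Nat.div_le_div_right h3.1
    · apply Nat.div_le_div_right
      omega
  have h3 : (K.image (fun m => m / p)).card ≤ ll / p + 2 := by
    refine (Finset.card_le_card h2).trans ?_
    rw [Nat.card_Icc]
    have h4 : (x + ll - 1) / p < x / p + ll / p + 2 := by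
      rw [Nat.div_lt_iff_lt_mul hp0]
      have h5 := Nat.lt_div_mul_add hp0 (a := x)
      have h6 := Nat.lt_div_mul_add hp0 (a := ll)
      have h7 : (x / p + ll / p + 2) * p = (x / p * p + p) + (ll / p * p + p) := by ring
      omega
    revert h4
    generalize (x + ll - 1) / p = u1
    generalize x / p = u2
    generalize ll / p = u3
    omega
  have h4 : (K.card : ℝ) ≤ 2 * ((ll : ℝ) / p + 2) := by
    have h5 : K.card ≤ 2 * (ll / p + 2) := h1.trans (Nat.mul_le_mul_left 2 h3)
    have h6 : (K.card : ℝ) ≤ 2 * (((ll / p : ℕ) : ℝ) + 2) := by exact_mod_cast h5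
    have h7 : ((ll / p : ℕ) : ℝ) ≤ (ll : ℝ) / p := Nat.cast_div_le
    linarith
  have h5 : ((II L i).card : ℝ) = ll := by rw [II_card]
  rw [h5]
  have h6 : (0 : ℝ) < ll := by exact_mod_cast hll0
  have h7 : (0 : ℝ) < p := by exact_mod_cast hp0
  calc (K.card : ℝ) ≤ 2 * ((ll : ℝ) / p + 2) := h4
    _ = (2 / p + 4 * (1 / (ll : ℝ))) * ll := by field_simp; ring

theorem harm {L : ℕ} (hL : 1 ≤ L) (k : ℕ) :
    ∑ i ∈ range k, 1 / ((II L i).card : ℝ) ≤ (1 + Real.log k) / (L : ℝ) ^ 2 := by
  have hL0 : (0 : ℝ) < L := by exact_mod_cast hL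
  have h1 : ∑ i ∈ range k, 1 / ((II L i).card : ℝ) ≤
      ∑ i ∈ range k, (1 / (L : ℝ) ^ 2) * (((i + 1 : ℕ) : ℝ)⁻¹) := by
    apply Finset.sum_le_sum
    intro i _
    rw [II_card]
    push_cast
    rw [← one_div, div_mul_div_comm, mul_one]
    apply one_div_le_one_div_of_le (by positivity)
    have : (0 : ℝ) ≤ (L : ℝ) ^ 2 := by positivity
    have hi : (0 : ℝ) ≤ i := by positivity
    nlinarith
  refine h1.trans ?_
  rw [← Finset.mul_sum]
  have h2 := harmonic_le_one_add_log k
  have h3 : ((harmonic k : ℚ) : ℝ) = ∑ i ∈ range k, (((i + 1 : ℕ) : ℝ)⁻¹) := by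
    unfold harmonic
    push_cast
    rfl
  rw [h3] at h2
  rw [div_mul_eq_mul_div, one_mul]
  exact div_le_div_of_nonneg_right h2 (by positivity)

open scoped Classical in
theorem inl_card {p L i n : ℕ} (hp : 0 < p) (f : ℕ → ℕ) (hf : ∀ i' < i, f i' ∈ II L i') :
    ((II L i).filter (fun m => (∃ i' < i, ee p m + ee p (f i') = n) ∨
      ee p m + ee p m = n)).card ≤
      ((range (i + 1)).filter (fun i' => cond L (sst p n) i i')).card := by
  apply Finset.card_le_card_of_injOn
    (fun m => if h : ∃ i' < i, ee p m + ee p (f i') = n then h.choose else i)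
  · intro m hm
    have hm' := Finset.mem_coe.1 hm
    rw [mem_filter] at hm'
    have h0 : (if h : ∃ i' < i, ee p m + ee p (f i') = n then h.choose else i) ∈
        (range (i + 1)).filter (fun i' => cond L (sst p n) i i') := by
      by_cases h : ∃ i' < i, ee p m + ee p (f i') = n
      · rw [dif_pos h]
        have h1 := h.choose_spec
        rw [mem_filter, mem_range]
        refine ⟨by omega, ?_⟩
        rw [← add_eq_sst hp h1.2]
        exact cond_of_mem hm'.1 (hf _ h1.1)
      · rw [dif_neg h]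
        rw [mem_filter, mem_range]
        refine ⟨by omega, ?_⟩
        rcases hm'.2 with h1 | h1
        · exact absurd h1 h
        · rw [← add_eq_sst hp h1]
          exact cond_of_mem hm'.1 hm'.1
    exact Finset.mem_coe.2 h0
  · intro m hm m' hm' heq
    have hm1 := Finset.mem_coe.1 hm
    have hm2 := Finset.mem_coe.1 hm'
    rw [mem_filter] at hm1 hm2
    change (if h : ∃ i' < i, ee p m + ee p (f i') = n then h.choose else i) =
      (if h : ∃ i' < i, ee p m' + ee p (f i') = n then h.choose else i) at heq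
    by_cases h : ∃ i' < i, ee p m + ee p (f i') = n
    · by_cases h' : ∃ i' < i, ee p m' + ee p (f i') = n
      · rw [dif_pos h, dif_pos h'] at heq
        have h1 := h.choose_spec
        have h2 := h'.choose_spec
        rw [← heq] at h2
        apply ee_inj hp
        omega
      · rw [dif_pos h, dif_neg h'] at heq
        have h1 := h.choose_spec
        omega
    · by_cases h' : ∃ i' < i, ee p m' + ee p (f i') = n
      · rw [dif_neg h, dif_pos h'] at heq
        have h1 := h'.choose_spec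
        omega
      · rcases hm1.2 with h1 | h1
        · exact absurd h1 h
        rcases hm2.2 with h2 | h2
        · exact absurd h2 h'
        apply ee_inj hp
        omega

/-- numerical estimate for the union bound -/
theorem num_bound {p l d : ℕ} (hd : p ≤ 2 ^ (d + 1)) (hl : 6 ≤ l) {N : ℕ}
    (hN : N ≤ 4 * p ^ 2 + p ^ 3) :
    (N : ℝ) * (3 * 2 ^ d / ((2 : ℝ) ^ l / 6) ^ (8 * (d / l) + 16)) < 1 := by
  have h1 : (2 : ℝ) ^ l ≤ ((2 : ℝ) ^ l / 6) ^ 2 := by
    have h2 : (36 : ℝ) ≤ 2 ^ l := by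
      calc (36 : ℝ) ≤ 2 ^ 6 := by norm_num
        _ ≤ 2 ^ l := pow_le_pow_right₀ (by norm_num) hl
    have h3 : (0 : ℝ) < 2 ^ l := by positivity
    rw [div_pow]
    rw [le_div_iff₀ (by norm_num)]
    nlinarith
  have h2 : (2 : ℝ) ^ (4 * d + 28) ≤ ((2 : ℝ) ^ l / 6) ^ (8 * (d / l) + 16) := by
    have h3 : 8 * (d / l) + 16 = 2 * (4 * (d / l) + 8) := by ring
    rw [h3, pow_mul]
    calc (2 : ℝ) ^ (4 * d + 28) ≤ ((2 : ℝ) ^ l) ^ (4 * (d / l) + 8) := by
          rw [← pow_mul]
          apply pow_le_pow_right₀ (by norm_num)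
          have h4 := Nat.lt_div_mul_add (show 0 < l by omega) (a := d)
          have h5 : l * (4 * (d / l) + 8) = 4 * (d / l * l) + 8 * l := by ring
          omega
      _ ≤ (((2 : ℝ) ^ l / 6) ^ 2) ^ (4 * (d / l) + 8) :=
          pow_le_pow_left₀ (by positivity) h1 _
  have h3 : (N : ℝ) ≤ 2 ^ (3 * d + 5) := by
    have h4 : N ≤ 2 ^ (3 * d + 5) := by
      refine hN.trans ?_
      have h5 : p ^ 2 ≤ (2 ^ (d + 1)) ^ 2 := Nat.pow_le_pow_left hd 2
      have h6 : p ^ 3 ≤ (2 ^ (d + 1)) ^ 3 := Nat.pow_le_pow_left hd 3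
      have h7 : (2 ^ (d + 1)) ^ 2 ≤ (2 ^ (d + 1)) ^ 3 / 2 := by
        rw [Nat.le_div_iff_mul_le (by norm_num)]
        calc (2 ^ (d + 1)) ^ 2 * 2 ≤ (2 ^ (d + 1)) ^ 2 * 2 ^ (d + 1) := by
              apply Nat.mul_le_mul_left
              calc 2 = 2 ^ 1 := by norm_num
                _ ≤ 2 ^ (d + 1) := Nat.pow_le_pow_right (by norm_num) (by omega)
          _ = (2 ^ (d + 1)) ^ 3 := by ring
      have h8 : (2 ^ (d + 1)) ^ 3 = 2 ^ (3 * d + 3) := by rw [← pow_mul]; ring_nf
      have h9 : 2 ^ (3 * d + 5) = 4 * 2 ^ (3 * d + 3) := by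
        rw [show 3 * d + 5 = (3 * d + 3) + 2 by ring, pow_add]; ring
      rw [h9]
      omega
    exact_mod_cast h4
  have hpos : (0 : ℝ) < ((2 : ℝ) ^ l / 6) ^ (8 * (d / l) + 16) := by positivity
  rw [← mul_div_assoc, div_lt_one hpos]
  calc (N : ℝ) * (3 * 2 ^ d) ≤ 2 ^ (3 * d + 5) * (3 * 2 ^ d) :=
        mul_le_mul_of_nonneg_right h3 (by positivity)
    _ = 3 * 2 ^ (4 * d + 5) := by
        rw [show 4 * d + 5 = (3 * d + 5) + d by ring, pow_add]; ring
    _ < 2 ^ (4 * d + 28) := by
        have h9 : (2 : ℝ) ^ (4 * d + 28) = 2 ^ (4 * d + 5) * 2 ^ 23 := by rw [← pow_add]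
        rw [h9]
        have : (0 : ℝ) < 2 ^ (4 * d + 5) := by positivity
        linarith
    _ ≤ _ := h2

/-- WA-15 (the random set; from `adaptive`) -/
theorem rset_exists {p l d : ℕ} [Fact p.Prime] (hd : p ≤ 2 ^ (d + 1)) (hl : 6 ≤ l) :
    ∃ R : Set ℕ, RSet p l (16 * (d / l) + 32) R := by
  classical
  have hp : p.Prime := Fact.out
  have hp0 : 0 < p := hp.pos
  obtain ⟨L, hL⟩ : ∃ L, L = 2 ^ l := ⟨_, rfl⟩
  have hL64 : 64 ≤ L := by
    rw [hL]
    calc 64 = 2 ^ 6 := by norm_num
      _ ≤ 2 ^ l := Nat.pow_le_pow_right (by norm_num) hl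
  have hL1 : 1 ≤ L := by omega
  have hLR : (L : ℝ) = 2 ^ l := by rw [hL]; push_cast; rfl
  have hLR64 : (64 : ℝ) ≤ L := by exact_mod_cast hL64
  have hLpos : (0 : ℝ) < L := by linarith
  have hpR : (0 : ℝ) < p := by exact_mod_cast hp0
  obtain ⟨k, hk⟩ : ∃ k, k = p / L - 1 := ⟨_, rfl⟩
  obtain ⟨y, hy⟩ : ∃ y, y = 8 * (d / l) + 16 := ⟨_, rfl⟩
  -- elements of the intervals
  have hIlt : ∀ i < k, ∀ m ∈ II L i, m < p ^ 2 := by
    intro i hi m hm
    unfold II at hm
    rw [mem_Ico] at hm
    have h1 : i + 2 ≤ p / L := by omega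
    have h2 : L * (i + 2) ≤ p := le_trans (Nat.mul_le_mul_left L h1) (Nat.mul_div_le p L)
    calc m < L ^ 2 * (i + 2) ^ 2 := hm.2
      _ = (L * (i + 2)) ^ 2 := by ring
      _ ≤ p ^ 2 := Nat.pow_le_pow_left h2 2
  have hIpos : ∀ i, ∀ m ∈ II L i, 0 < m := by
    intro i m hm
    unfold II at hm
    rw [mem_Ico] at hm
    have : 0 < L ^ 2 * (i + 1) ^ 2 := by positivity
    omega
  have hIlt2 : ∀ i, ∀ m ∈ II L i, m < L ^ 2 * (i + 2) ^ 2 := by
    intro i m hm
    unfold II at hm
    rw [mem_Ico] at hm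
    exact hm.2
  have hIne : ∀ i, (II L i).Nonempty := by
    intro i
    rw [← Finset.card_pos, II_card]
    positivity
  have hIdisj : ∀ i i' m, m ∈ II L i → m ∈ II L i' → i = i' := by
    have key : ∀ i i' m, m ∈ II L i → m ∈ II L i' → i < i' → False := by
      intro i i' m h h' hlt
      unfold II at h h'
      rw [mem_Ico] at h h'
      have h1 : L ^ 2 * (i + 2) ^ 2 ≤ L ^ 2 * (i' + 1) ^ 2 := by
        have : i + 2 ≤ i' + 1 := by omega
        gcongr
      omega
    intro i i' m h h'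
    rcases lt_trichotomy i i' with h1 | h1 | h1
    · exact (key i i' m h h' h1).elim
    · exact h1
    · exact (key i' i m h' h h1).elim
  -- the constraints
  let J : Type := ℕ ⊕ (ZMod p × ZMod p × ZMod p)
  let s : Finset J := (range (4 * p ^ 2)).disjSum (univ.filter (fun q => q.1 ≠ 0))
  let B : J → ℕ → (ℕ → ℕ) → Finset ℕ := fun j i f => match j with
    | Sum.inl n => (II L i).filter (fun m => (∃ i' < i, ee p m + ee p (f i') = n) ∨
        ee p m + ee p m = n)
    | Sum.inr q => (II L i).filter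
        (fun m => q.2.2 - ((m / p : ℕ) : ZMod p) = q.1 * (q.2.1 - (m : ZMod p)) ^ 2)
  let b : J → ℕ → ℝ := fun j i => match j with
    | Sum.inl n => (((range (i + 1)).filter (fun i' => cond L (sst p n) i i')).card : ℝ) /
        ((II L i).card : ℝ)
    | Sum.inr _ => 2 / p + 4 * (1 / ((II L i).card : ℝ))
  have hBsub : ∀ j ∈ s, ∀ i < k, ∀ f, B j i f ⊆ II L i := by
    intro j _ i _ f
    rcases j with n | q
    · exact Finset.filter_subset _ _
    · exact Finset.filter_subset _ _
  have hloc : ∀ j ∈ s, ∀ i < k, ∀ f g : ℕ → ℕ, (∀ i' < i, f i' = g i') → B j i f = B j i g := by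
    intro j _ i _ f g hfg
    rcases j with n | q
    · change (II L i).filter (fun m => (∃ i' < i, ee p m + ee p (f i') = n) ∨
        ee p m + ee p m = n) = (II L i).filter (fun m => (∃ i' < i, ee p m + ee p (g i') = n) ∨
        ee p m + ee p m = n)
      apply Finset.filter_congr
      intro m _
      have : (∃ i' < i, ee p m + ee p (f i') = n) ↔ (∃ i' < i, ee p m + ee p (g i') = n) := by
        constructor
        · rintro ⟨i', hi', h⟩
          exact ⟨i', hi', by rw [← hfg i' hi']; exact h⟩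
        · rintro ⟨i', hi', h⟩
          exact ⟨i', hi', by rw [hfg i' hi']; exact h⟩
      rw [this]
    · rfl
  have hb : ∀ j ∈ s, ∀ i < k, ∀ f : ℕ → ℕ, (∀ i' < i, f i' ∈ II L i') →
      ((B j i f).card : ℝ) ≤ b j i * ((II L i).card : ℝ) := by
    intro j hj i _ f hf
    have hc : (0 : ℝ) < ((II L i).card : ℝ) := by exact_mod_cast Finset.card_pos.2 (hIne i)
    rcases j with n | q
    · change ((((II L i).filter (fun m => (∃ i' < i, ee p m + ee p (f i') = n) ∨
        ee p m + ee p m = n)).card : ℕ) : ℝ) ≤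
        (((range (i + 1)).filter (fun i' => cond L (sst p n) i i')).card : ℝ) /
        ((II L i).card : ℝ) * ((II L i).card : ℝ)
      rw [div_mul_cancel₀ _ hc.ne']
      exact_mod_cast inl_card hp0 f hf
    · have hq : q.1 ≠ 0 := by
        have h1 : q ∈ univ.filter (fun q : ZMod p × ZMod p × ZMod p => q.1 ≠ 0) :=
          Finset.inr_mem_disjSum.1 hj
        rw [mem_filter] at h1
        exact h1.2
      exact par_card hq hL1
  have hb0 : ∀ j ∈ s, ∀ i < k, 0 ≤ b j i := by
    intro j _ i _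
    rcases j with n | q
    · change 0 ≤ (((range (i + 1)).filter (fun i' => cond L (sst p n) i i')).card : ℝ) /
        ((II L i).card : ℝ)
      positivity
    · change 0 ≤ 2 / (p : ℝ) + 4 * (1 / ((II L i).card : ℝ))
      positivity
  have hA : (1 : ℝ) ≤ (2 : ℝ) ^ l / 6 := by
    rw [← hLR]
    linarith
  -- the exponent
  have hexp : ∀ j ∈ s, Real.exp ((2 : ℝ) ^ l / 6 * ∑ i ∈ range k, b j i) ≤ 3 * 2 ^ d := by
    have h3 : Real.exp 1 ≤ 3 := by
      have := Real.exp_one_lt_d9
      linarith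
    have hlog : (0.69 : ℝ) ≤ Real.log 2 := by
      have := Real.log_two_gt_d9
      linarith
    have hmain : ∀ x : ℝ, x ≤ 1 + d * Real.log 2 → Real.exp x ≤ 3 * 2 ^ d := by
      intro x hx
      calc Real.exp x ≤ Real.exp (1 + d * Real.log 2) := Real.exp_le_exp.2 hx
        _ = Real.exp 1 * 2 ^ d := by
            rw [Real.exp_add, mul_comm (d : ℝ), Real.exp_mul, Real.exp_log (by norm_num),
              Real.rpow_natCast]
        _ ≤ 3 * 2 ^ d := mul_le_mul_of_nonneg_right h3 (by positivity)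
    have hd0 : (0 : ℝ) ≤ d := by positivity
    intro j _
    apply hmain
    rw [← hLR]
    rcases j with n | q
    · have h1 := sum_cond (L := L) (k := k) (N := sst p n) hL1
      calc (L : ℝ) / 6 * ∑ i ∈ range k, b (Sum.inl n) i ≤ (L : ℝ) / 6 * (1 / (L : ℝ) ^ 2) :=
            mul_le_mul_of_nonneg_left h1 (by positivity)
        _ ≤ 1 := by
            rw [div_mul_div_comm, mul_one, div_le_one (by positivity)]
            nlinarith
        _ ≤ 1 + d * Real.log 2 := by nlinarith
    · have h1 : ∑ i ∈ range k, b (Sum.inr q) i ≤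
          2 / L + 4 * ((1 + Real.log k) / (L : ℝ) ^ 2) := by
        change ∑ i ∈ range k, (2 / (p : ℝ) + 4 * (1 / ((II L i).card : ℝ))) ≤ _
        rw [Finset.sum_add_distrib, ← Finset.mul_sum, Finset.sum_const, card_range, nsmul_eq_mul]
        have h2 := harm hL1 k
        have h4 : (k : ℝ) * (2 / p) ≤ 2 / L := by
          rw [mul_div_assoc', div_le_div_iff₀ hpR hLpos]
          have h5 : k * L ≤ p := by
            calc k * L ≤ (p / L) * L := Nat.mul_le_mul_right L (by rw [hk]; exact Nat.sub_le _ _)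
              _ ≤ p := Nat.div_mul_le_self p L
          have h6 : (k : ℝ) * L ≤ p := by exact_mod_cast h5
          nlinarith
        linarith
      have hk2 : Real.log k ≤ (d + 1) * Real.log 2 := by
        rcases Nat.eq_zero_or_pos k with h0 | h0
        · rw [h0, Nat.cast_zero, Real.log_zero]
          positivity
        · have h2 : (k : ℝ) ≤ 2 ^ (d + 1) := by
            have h4 : k ≤ p := by
              have := Nat.div_le_self p L
              omega
            exact_mod_cast h4.trans hd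
          calc Real.log k ≤ Real.log (2 ^ (d + 1)) :=
                Real.log_le_log (by exact_mod_cast h0) h2
            _ = (d + 1) * Real.log 2 := by rw [Real.log_pow]; push_cast; ring
      have hlog1 : Real.log 2 ≤ 1 := by
        have := Real.log_two_lt_d9
        linarith
      have h2 : (L : ℝ) / 6 * ∑ i ∈ range k, b (Sum.inr q) i ≤
          (L : ℝ) / 6 * (2 / L + 4 * ((1 + Real.log k) / (L : ℝ) ^ 2)) :=
        mul_le_mul_of_nonneg_left h1 (by positivity)
      have h4 : (L : ℝ) / 6 * (2 / L + 4 * ((1 + Real.log k) / (L : ℝ) ^ 2)) =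
          1 / 3 + 2 / 3 * (1 + Real.log k) / L := by
        field_simp
        ring
      have h5 : 2 / 3 * (1 + Real.log k) / L ≤ 2 / 3 * (1 + (d + 1) * Real.log 2) / 64 := by
        have h6 : 2 / 3 * (1 + Real.log k) / L ≤ 2 / 3 * (1 + (d + 1) * Real.log 2) / L := by
          apply div_le_div_of_nonneg_right _ hLpos.le
          linarith
        refine h6.trans ?_
        apply div_le_div_of_nonneg_left _ (by norm_num) hLR64
        have : 0 ≤ (d + 1) * Real.log 2 := by positivity
        linarith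
      rw [h4] at h2
      have h7 : 0 ≤ d * Real.log 2 := by positivity
      linarith
  have hsum : ∑ j ∈ s, Real.exp ((2 : ℝ) ^ l / 6 * ∑ i ∈ range k, b j i) /
      ((2 : ℝ) ^ l / 6) ^ y < 1 := by
    have hpos : (0 : ℝ) < ((2 : ℝ) ^ l / 6) ^ y := by positivity
    have h1 : ∑ j ∈ s, Real.exp ((2 : ℝ) ^ l / 6 * ∑ i ∈ range k, b j i) /
        ((2 : ℝ) ^ l / 6) ^ y ≤ s.card • (3 * 2 ^ d / ((2 : ℝ) ^ l / 6) ^ y) := by
      apply Finset.sum_le_card_nsmul
      intro j hj
      exact div_le_div_of_nonneg_right (hexp j hj) hpos.le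
    have hcard : s.card ≤ 4 * p ^ 2 + p ^ 3 := by
      have h2 : s.card = (range (4 * p ^ 2)).card +
          (univ.filter (fun q : ZMod p × ZMod p × ZMod p => q.1 ≠ 0)).card :=
        Finset.card_disjSum _ _
      rw [h2, card_range]
      have h3 : (univ.filter (fun q : ZMod p × ZMod p × ZMod p => q.1 ≠ 0)).card ≤ p ^ 3 := by
        refine (Finset.card_le_univ _).trans ?_
        rw [Fintype.card_prod, Fintype.card_prod, ZMod.card]
        apply le_of_eq
        ring
      omega
    refine lt_of_le_of_lt h1 ?_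
    rw [nsmul_eq_mul, hy]
    exact num_bound hd hl hcard
  obtain ⟨f, hf, hhit⟩ := Pool.Agent.Helper94.WA.adaptive (fun i => II L i) (fun i _ => hIne i) s B hBsub hloc b hb
    hb0 _ hA y hsum
  -- the set
  have hflt : ∀ i < k, f i < p ^ 2 := fun i hi => hIlt i hi _ (hf i hi)
  have hfinj : ∀ i < k, ∀ i' < k, ee p (f i) = ee p (f i') → i = i' := by
    intro i hi i' hi' h
    have h1 := ee_inj hp0 h
    have h2 := hf i' hi'
    rw [← h1] at h2
    exact hIdisj i i' (f i) (hf i hi) h2
  have hdivlt : ∀ i < k, f i / p < p := by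
    intro i hi
    rw [Nat.div_lt_iff_lt_mul hp0]
    have := hflt i hi
    rwa [sq] at this
  have hval1 : ∀ i, (((f i : ℕ) : ZMod p)).val = f i % p := fun i => ZMod.val_natCast p (f i)
  have hval2 : ∀ i < k, (((f i / p : ℕ) : ZMod p)).val = f i / p := by
    intro i hi
    rw [ZMod.val_natCast, Nat.mod_eq_of_lt (hdivlt i hi)]
  refine ⟨{r | ∃ i < k, r = ee p (f i)}, ?_, ?_, ?_, ?_, ?_⟩
  · -- form
    rintro r ⟨i, hi, rfl⟩
    refine ⟨((f i : ℕ) : ZMod p), ((f i / p : ℕ) : ZMod p), ?_⟩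
    rw [hval1, hval2 i hi]
    rfl
  · -- pos
    rintro r ⟨i, hi, rfl⟩
    exact lt_of_lt_of_le (hIpos i _ (hf i hi)) (le_ee p _)
  · -- RR
    intro n
    by_cases hn : n < 4 * p ^ 2
    · have hj : (Sum.inl n : J) ∈ s := Finset.inl_mem_disjSum.2 (mem_range.2 hn)
      have h1 := hhit (Sum.inl n) hj
      set HH := (range k).filter (fun i => f i ∈ B (Sum.inl n) i f) with hHH
      have hmemHH : ∀ i < k, ((∃ i' < i, ee p (f i) + ee p (f i') = n) ∨
          ee p (f i) + ee p (f i) = n) → i ∈ HH := by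
        intro i hi h
        rw [hHH, mem_filter, mem_range]
        refine ⟨hi, ?_⟩
        change f i ∈ (II L i).filter (fun m => (∃ i' < i, ee p m + ee p (f i') = n) ∨
          ee p m + ee p m = n)
        rw [mem_filter]
        exact ⟨hf i hi, h⟩
      have hsub : {q : ℕ × ℕ | q.1 ∈ {r | ∃ i < k, r = ee p (f i)} ∧
          q.2 ∈ {r | ∃ i < k, r = ee p (f i)} ∧ q.1 + q.2 = n} ⊆
          ((HH.image (fun i => (ee p (f i), n - ee p (f i))) ∪
            HH.image (fun i => (n - ee p (f i), ee p (f i))) : Finset (ℕ × ℕ)) : Set (ℕ × ℕ)) := by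
        rintro ⟨u, v⟩ ⟨⟨i, hi, hu⟩, ⟨i', hi', hv⟩, huv⟩
        simp only at hu hv huv
        rw [Finset.mem_coe, mem_union, mem_image, mem_image]
        rcases lt_trichotomy i i' with h2 | h2 | h2
        · right
          refine ⟨i', hmemHH i' hi' (Or.inl ⟨i, h2, by omega⟩), ?_⟩
          rw [Prod.mk.injEq]
          constructor
          · omega
          · exact hv.symm
        · left
          subst h2
          refine ⟨i, hmemHH i hi (Or.inr (by omega)), ?_⟩
          rw [Prod.mk.injEq]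
          constructor
          · exact hu.symm
          · omega
        · left
          refine ⟨i, hmemHH i hi (Or.inl ⟨i', h2, by omega⟩), ?_⟩
          rw [Prod.mk.injEq]
          constructor
          · exact hu.symm
          · omega
      unfold rp
      refine (Set.ncard_le_ncard hsub (Finset.finite_toSet _)).trans ?_
      rw [Set.ncard_coe_finset]
      refine (Finset.card_union_le _ _).trans ?_
      have h3 := Finset.card_image_le (s := HH) (f := fun i => (ee p (f i), n - ee p (f i)))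
      have h4 := Finset.card_image_le (s := HH) (f := fun i => (n - ee p (f i), ee p (f i)))
      omega
    · have hsub : {q : ℕ × ℕ | q.1 ∈ {r | ∃ i < k, r = ee p (f i)} ∧
          q.2 ∈ {r | ∃ i < k, r = ee p (f i)} ∧ q.1 + q.2 = n} = ∅ := by
        rw [Set.eq_empty_iff_forall_notMem]
        rintro ⟨u, v⟩ ⟨⟨i, hi, hu⟩, ⟨i', hi', hv⟩, huv⟩
        simp only at hu hv huv
        have h1 := ee_le p (f i)
        have h2 := ee_le p (f i')
        have h3 := hflt i hi
        have h4 := hflt i' hi'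
        omega
      unfold rp
      rw [hsub, Set.ncard_empty]
      exact Nat.zero_le _
  · -- RK
    intro lam t w hlam
    have hj : (Sum.inr (lam, t, w) : J) ∈ s :=
      Finset.inr_mem_disjSum.2 (mem_filter.2 ⟨mem_univ _, hlam⟩)
    have h1 := hhit (Sum.inr (lam, t, w)) hj
    set HH := (range k).filter (fun i => f i ∈ B (Sum.inr (lam, t, w)) i f) with hHH
    have hsub : {q : ZMod p × ZMod p | q.1.val + 2 * p * q.2.val ∈
        {r | ∃ i < k, r = ee p (f i)} ∧ w - q.2 = lam * (t - q.1) ^ 2} ⊆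
        ((HH.image (fun i => (((f i : ℕ) : ZMod p), ((f i / p : ℕ) : ZMod p))) :
          Finset (ZMod p × ZMod p)) : Set (ZMod p × ZMod p)) := by
      rintro ⟨a, c⟩ ⟨⟨i, hi, hr⟩, hrel⟩
      simp only at hr hrel
      have ha : a.val < p := ZMod.val_lt a
      have h2 : a.val = f i % p ∧ c.val = f i / p := by
        have h3 : a.val < 2 * p := by omega
        have h4 : f i % p < 2 * p := by
          have := Nat.mod_lt (f i) hp0
          omega
        unfold ee at hr
        constructor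
        · have h5 : (a.val + 2 * p * c.val) % (2 * p) =
              (f i % p + 2 * p * (f i / p)) % (2 * p) := by rw [hr]
          rw [Nat.add_mul_mod_self_left, Nat.add_mul_mod_self_left] at h5
          rwa [Nat.mod_eq_of_lt h3, Nat.mod_eq_of_lt h4] at h5
        · have h5 : (a.val + 2 * p * c.val) / (2 * p) =
              (f i % p + 2 * p * (f i / p)) / (2 * p) := by rw [hr]
          rw [Nat.add_mul_div_left _ _ (by omega), Nat.add_mul_div_left _ _ (by omega),
            Nat.div_eq_of_lt h3, Nat.div_eq_of_lt h4, zero_add, zero_add] at h5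
          exact h5
      have ha' : ((f i : ℕ) : ZMod p) = a := by
        rw [← ZMod.natCast_zmod_val a, h2.1, ZMod.natCast_mod]
      have hc' : ((f i / p : ℕ) : ZMod p) = c := by
        rw [← h2.2, ZMod.natCast_zmod_val]
      rw [Finset.mem_coe, mem_image]
      refine ⟨i, ?_, by rw [ha', hc']⟩
      rw [hHH, mem_filter, mem_range]
      refine ⟨hi, ?_⟩
      change f i ∈ (II L i).filter
        (fun m => w - ((m / p : ℕ) : ZMod p) = lam * (t - (m : ZMod p)) ^ 2)
      rw [mem_filter]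
      refine ⟨hf i hi, ?_⟩
      rw [ha', hc']
      exact hrel
    refine (Set.ncard_le_ncard hsub (Finset.finite_toSet _)).trans ?_
    rw [Set.ncard_coe_finset]
    have h3 := Finset.card_image_le (s := HH)
      (f := fun i => (((f i : ℕ) : ZMod p), ((f i / p : ℕ) : ZMod p)))
    omega
  · -- size
    intro Y hY1 hY2
    rw [show (2 : ℕ) ^ (l + 3) = 8 * L by rw [hL, pow_add]; ring]
    have hY1' : 256 * L ^ 2 ≤ Y := by
      refine le_trans (le_of_eq ?_) hY1
      rw [hL, ← pow_mul, show l * 2 = 2 * l by ring, pow_add]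
      ring
    obtain ⟨z, hz⟩ : ∃ z, z = Nat.sqrt Y := ⟨_, rfl⟩
    have hz1 : z * z ≤ Y := by rw [hz]; exact Nat.sqrt_le Y
    have hz2 : Y < (z + 1) * (z + 1) := by rw [hz]; exact Nat.lt_succ_sqrt Y
    have hz3 : 16 * L ≤ z := by
      rw [hz, Nat.le_sqrt]
      nlinarith
    have hz4 : z ≤ 2 * p := by
      have h1 : z * z ≤ (2 * p) * (2 * p) := by
        rw [← sq (2 * p)]
        exact hz1.trans hY2
      exact Nat.mul_self_le_mul_self_iff.1 h1
    obtain ⟨c0, hc0⟩ : ∃ c0, c0 = z / (4 * L) := ⟨_, rfl⟩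
    have hc1 : 4 * L * c0 ≤ z := by rw [hc0]; exact Nat.mul_div_le z (4 * L)
    have hc2 : z < 4 * L * c0 + 4 * L := by
      have := Nat.lt_div_mul_add (show 0 < 4 * L by omega) (a := z)
      rw [← hc0] at this
      linarith
    have hck : c0 + 1 ≤ p / L := by
      rw [Nat.le_div_iff_mul_le (by omega)]
      nlinarith
    have hc3 : 2 * (L ^ 2 * (c0 + 1) ^ 2) ≤ Y := by
      have h1 : 4 * (L * (c0 + 1)) ≤ 2 * z := by nlinarith
      have h2 : L * (c0 + 1) * 2 ≤ z := by omega
      have h3 : (L * (c0 + 1) * 2) * (L * (c0 + 1) * 2) ≤ z * z := Nat.mul_self_le_mul_self h2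
      nlinarith
    have hsub : (((range c0).image (fun i => ee p (f i)) : Finset ℕ) : Set ℕ) ⊆
        {r | ∃ i < k, r = ee p (f i)} ∩ Set.Iio Y := by
      intro r hr
      rw [Finset.mem_coe, mem_image] at hr
      obtain ⟨i, hi, rfl⟩ := hr
      rw [mem_range] at hi
      have hik : i < k := by omega
      refine ⟨⟨i, hik, rfl⟩, ?_⟩
      rw [Set.mem_Iio]
      have h1 := ee_le p (f i)
      have h2 := hIlt2 i _ (hf i hik)
      have h3 : L ^ 2 * (i + 2) ^ 2 ≤ L ^ 2 * (c0 + 1) ^ 2 := by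
        have : i + 2 ≤ c0 + 1 := by omega
        gcongr
      omega
    have hcard : c0 ≤ ({r | ∃ i < k, r = ee p (f i)} ∩ Set.Iio Y).ncard := by
      have hfin : ({r | ∃ i < k, r = ee p (f i)} ∩ Set.Iio Y).Finite :=
        (Set.finite_Iio Y).subset Set.inter_subset_right
      have h1 := Set.ncard_le_ncard hsub hfin
      rw [Set.ncard_coe_finset, Finset.card_image_of_injOn, card_range] at h1
      · exact h1
      · intro i hi i' hi' h
        rw [Finset.mem_coe, mem_range] at hi hi'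
        exact hfinj i (by omega) i' (by omega) h
    have hfin : z + 1 ≤ 8 * L * c0 := by
      have h1 : 8 * L * c0 = 2 * (4 * L * c0) := by ring
      omega
    calc Y ≤ (z + 1) * (z + 1) := hz2.le
      _ ≤ (8 * L * c0) * (8 * L * c0) := Nat.mul_self_le_mul_self hfin
      _ = (8 * L * c0) ^ 2 := by ring
      _ ≤ _ := by
        apply Nat.pow_le_pow_left
        exact Nat.mul_le_mul_left _ hcard

end Pool.Agent.Helper83.WA
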